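import Pool.Agent.Helper81.LT.Inc

/-!
# Packet 2321: codes for bounded truth
-/

namespace Pool.Agent.Helper89.LT

open FirstOrder Language
open Pool.Agent.Helper81.LT
open Nat.Partrec (Code)

theorem primrec_code (f : ℕ → ℕ) (hf : Nat.Primrec f) :
    ∃ c : Code, primB c = true ∧ ∀ n, Code.eval c n = Part.some (f n) := by
  induction hf with
  | zero => exact ⟨Code.zero, rfl, fun n => rfl⟩
  | succ => exact ⟨Code.succ, rfl, fun n => rfl⟩
  | left => exact ⟨Code.left, rfl, fun n => rfl⟩
  | right => exact ⟨Code.right, rfl, fun n => rfl⟩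
  | pair _ _ ihf ihg =>
      obtain ⟨c, hc, ec⟩ := ihf
      obtain ⟨d, hd, ed⟩ := ihg
      refine ⟨Code.pair c d, by simp [primB, hc, hd], fun n => ?_⟩
      simp [Code.eval, ec, ed, Seq.seq]
  | comp _ _ ihf ihg =>
      obtain ⟨c, hc, ec⟩ := ihf
      obtain ⟨d, hd, ed⟩ := ihg
      refine ⟨Code.comp c d, by simp [primB, hc, hd], fun n => ?_⟩
      simp [Code.eval, ec, ed]
  | @prec f g _ _ ihf ihg =>
      obtain ⟨c, hc, ec⟩ := ihf
      obtain ⟨d, hd, ed⟩ := ihg
      refine ⟨Code.prec c d, by simp [primB, hc, hd], fun n => ?_⟩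
      have key : ∀ a m : ℕ, Code.eval (Code.prec c d) (Nat.pair a m) =
          Part.some (Nat.rec (f a) (fun y IH => g (Nat.pair a (Nat.pair y IH))) m) := by
        intro a m
        induction m with
        | zero => rw [Code.eval_prec_zero, ec]; rfl
        | succ m ih =>
            rw [Code.eval_prec_succ, ih]
            simp [ed]
      have := key n.unpair.1 n.unpair.2
      rw [Nat.pair_unpair] at this
      rw [this]

theorem bcode (h : BPR) : BCODE := by
  classical
  intro n φ
  have h1 := h n φ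
  have h2 : Primrec (fun p : List ℕ × List ℕ =>
      if Bd φ (fun k => p.2.getD k 0) (fun i : Fin n => p.1.getD (n - 1 - i) 0) then 1 else 0) :=
    Primrec.ite h1 (Primrec.const 1) (Primrec.const 0)
  have h3 : Primrec (fun m : ℕ => (fun p : List ℕ × List ℕ =>
      if Bd φ (fun k => p.2.getD k 0) (fun i : Fin n => p.1.getD (n - 1 - i) 0) then 1 else 0)
      ((Denumerable.ofNat (List ℕ) m.unpair.1, Denumerable.ofNat (List ℕ) m.unpair.2))) :=
    h2.comp (Primrec.pair ((Primrec.ofNat _).comp (Primrec.fst.comp Primrec.unpair))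
      ((Primrec.ofNat _).comp (Primrec.snd.comp Primrec.unpair)))
  obtain ⟨c, hc, ec⟩ := primrec_code _ (Primrec.nat_iff.1 h3)
  refine ⟨c, hc, fun w l => ?_⟩
  unfold Rc
  rw [ec]
  simp only [Nat.unpair_pair, Denumerable.ofNat_encode]
  rw [Part.some_inj]
  split_ifs with hh
  · exact ⟨fun _ => hh, fun _ => rfl⟩
  · exact ⟨fun h0 => absurd h0 (by decide), fun h0 => absurd h0 hh⟩

end Pool.Agent.Helper89.LT
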