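import Pool.Agent.Helper81.LT.Mod

/-!
# Packet 2278: the standard model
-/

namespace Pool.Agent.Helper89.LT

open FirstOrder Language
open Pool.Agent.Helper81.LT

theorem pamNat : PAM ℕ where
  zero_le := Nat.zero_le
  succ_le := fun _ _ h => h
  exists_add := fun x y h => ⟨y - x, by omega⟩
  ind := fun P _ h0 hs x => Nat.rec h0 (fun n hn => hs n hn) x

theorem base_nat (σ : LA.Sentence) (h : PABase σ) : ℕ ⊨ σ := by
  cases h <;>
  simp only [Sentence.Realize, Formula.Realize, BoundedFormula.realize_all,
      BoundedFormula.realize_bdEqual, realize_tadd, realize_tmul, realize_tzero, realize_tone,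
      realize_ltF, X, Term.realize_var, Sum.elim_inr, BoundedFormula.realize_imp,
      BoundedFormula.realize_sup, BoundedFormula.realize_ex, BoundedFormula.realize_not] <;>
  intros <;> simp [Fin.snoc] at *
  case add_assoc => omega
  case add_comm => omega
  case mul_assoc => ring
  case mul_comm => ring
  case mul_add => ring
  case lt_trans h1 h2 => exact lt_trans h1 h2
  case lt_total => omega
  case add_lt h => exact h
  case mul_lt h1 h2 => exact Nat.mul_lt_mul_of_pos_right h2 h1
  case sub a b h => exact ⟨b - a, by omega⟩
  case discrete h => omega
  case nonneg => omega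

theorem ind_nat {k : ℕ} (φ : LA.Formula (Fin k ⊕ Unit)) : ℕ ⊨ induction φ := by
  unfold induction
  simp only [Sentence.Realize]
  rw [Formula.realize_iAlls]
  intro i
  rw [Formula.realize_relabel, Formula.realize_imp, Formula.realize_imp, Formula.realize_iAlls,
    Formula.realize_iAlls]
  intro h0 hS
  rw [Formula.Realize, BoundedFormula.realize_subst, ← Formula.Realize] at h0
  have key : ∀ n : ℕ, φ.Realize (Sum.elim i fun _ => n) := by
    intro n
    induction n with
    | zero =>
        convert h0 using 1
        funext a
        rcases a with a | a
        · rfl
        · rfl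
    | succ n ih =>
        have h := hS (fun _ => n)
        rw [Formula.realize_imp] at h
        have h1 := h (by
          convert ih using 1
          funext a
          rcases a with a | a
          · rfl
          · rfl)
        rw [Formula.Realize, BoundedFormula.realize_subst, ← Formula.Realize] at h1
        convert h1 using 1
        funext a
        rcases a with a | a
        · rfl
        · rfl
  intro x
  convert key (x ()) using 1
  funext a
  rcases a with a | a
  · rfl
  · rfl

theorem natPA : NATPA := by
  refine ⟨pamNat, ?_⟩
  rw [Theory.model_iff]
  rintro σ (h | ⟨k, φ, rfl⟩)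
  · exact base_nat σ h
  · exact ind_nat φ

end Pool.Agent.Helper89.LT
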